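import Pool.Agent.Helper84.EXO.Roots
import Pool.Agent.Helper83.YV.Defs

/-!
# YV, part of N4: tuples with the relation `ρ₁ ρ₂ ρ₃ = q π` are not `RelLefschetzF`
-/

set_option autoImplicit false

open Polynomial

namespace Pool.Agent.Helper83.YV

open Pool.Agent.Helper84.AA
open Pool.Agent.Helper84.LM (InfSim InLie polyFun)
open Pool.Agent.Helper84.LR (powPoly)
open Pool.Agent.Helper84.EX7
open Pool.Agent.Helper84.EXO
open Pool.Agent.Helper19.AAR (splitF)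
open Pool.Agent.Helper59.RL (Part orth)
open Pool.Agent.Helper8.EX (quad quad_fac Nice nice_multiset map_frob)

section Core

variable {ι : Type} [Fintype ι] [DecidableEq ι]

/-- The linear algebra, with the extra endomorphism supported at the last index. -/
theorem core4 (q : ℂ) (hq : q ≠ 0) (z : ι → ℂ)
    (hz : ∀ s, z s ≠ 0) (i₁ i₂ i₃ i₄ : ι)
    (hi : i₁ ≠ i₂ ∧ i₁ ≠ i₃ ∧ i₁ ≠ i₄ ∧ i₂ ≠ i₃ ∧ i₂ ≠ i₄ ∧ i₃ ≠ i₄)
    (hrel : z i₁ * z i₂ * z i₃ = q * z i₄) :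
    ∃ (ψ : LinearMap.BilinForm ℂ (ι ⊕ ι → ℂ)) (G : Subgroup (Module.End ℂ (ι ⊕ ι → ℂ))ˣ)
      (γ : (Module.End ℂ (ι ⊕ ι → ℂ))ˣ) (B : Module.End ℂ (ι ⊕ ι → ℂ)),
      ψ.Nondegenerate ∧ (∀ x, ψ x x = 0) ∧ γ ∈ G ∧
      (∀ g ∈ G, ∃ c : ℂ, ∀ x y, ψ ((g : Module.End ℂ (ι ⊕ ι → ℂ)) x)
        ((g : Module.End ℂ (ι ⊕ ι → ℂ)) y) = c * ψ x y) ∧
      (∀ U : Submodule ℂ (ι ⊕ ι → ℂ), (∀ X, InLie G X → ∀ u ∈ U, X u ∈ U) →
        ∃ U' : Submodule ℂ (ι ⊕ ι → ℂ), (∀ X, InLie G X → ∀ u ∈ U', X u ∈ U') ∧ IsCompl U U') ∧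
      (γ : Module.End ℂ (ι ⊕ ι → ℂ)).IsSemisimple ∧
      (∀ x y, ψ ((γ : Module.End ℂ (ι ⊕ ι → ℂ)) x) ((γ : Module.End ℂ (ι ⊕ ι → ℂ)) y) =
        q * ψ x y) ∧
      LinearMap.charpoly (γ : Module.End ℂ (ι ⊕ ι → ℂ)) =
        ∏ s, ((X - C (z s)) * (X - C (q / z s))) ∧
      (∀ s, (γ : Module.End ℂ (ι ⊕ ι → ℂ)) (Pi.single s 1) =
        (Sum.elim z (fun t => q / z t) s) • Pi.single s 1) ∧
      InLie G 0 ∧ ¬ InLie G B ∧ InfSim ψ B ∧
      (∀ Y : Module.End ℂ (ι ⊕ ι → ℂ), (∀ Z, InLie G Z → Y * Z = Z * Y) → B * Y = Y * B) ∧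
      ∀ v, ψ v (Pi.single (Sum.inl i₄) 1) = 0 → ψ v (Pi.single (Sum.inr i₄) 1) = 0 → B v = 0 := by
  set d : ι ⊕ ι → ℂ := Sum.elim z (fun t => q / z t) with hd
  have hd0 : ∀ s, d s ≠ 0 := by
    rintro (s | s)
    · exact hz s
    · exact div_ne_zero hq (hz s)
  have hdq : ∀ s, d (Sum.inl s) * d (Sum.inr s) = q := fun s => by
    simp only [hd, Sum.elim_inl, Sum.elim_inr]
    exact mul_div_cancel₀ q (hz s)
  have hu : DD d * DD (fun s => (d s)⁻¹) = 1 := by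
    rw [DD_mul, ← DD_one]; congr 1; funext s; exact mul_inv_cancel₀ (hd0 s)
  have hu' : DD (fun s => (d s)⁻¹) * DD d = 1 := by
    rw [DD_mul, ← DD_one]; congr 1; funext s; exact inv_mul_cancel₀ (hd0 s)
  obtain ⟨y, hy, hy1, hy2⟩ := exists_sep3 i₁ i₂ i₃ i₄ hi
  have hyL : InLie (grp3 i₁ i₂ i₃ i₄) (DD y) := inLie_grp3 hy1 hy2
  set β : ι ⊕ ι → ℂ := fun s => if s = Sum.inl i₄ then 1 else if s = Sum.inr i₄ then -1 else 0
    with hβ
  refine ⟨form, grp3 i₁ i₂ i₃ i₄, ⟨DD d, DD (fun s => (d s)⁻¹), hu, hu'⟩, DD β, form_nondeg,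
    form_alt, ⟨d, q, rfl, hd0, hdq, ?_⟩, ?_, ?_, ?_, ?_, ?_, ?_, ?_, ?_, ?_, ?_, ?_⟩
  · simpa [hd] using hrel
  · rintro g ⟨e, c, h1, -, h3, -⟩
    exact ⟨c, fun x y => by rw [h1]; exact form_DD h3 x y⟩
  · intro U hU
    obtain ⟨U', h1, h2⟩ := compl_exists hy (hU _ hyL)
    refine ⟨U', fun X hX u hu => ?_, h2⟩
    obtain ⟨x, rfl⟩ := diag_of_inLie3 hX
    exact h1 x u hu
  · exact semisimple_DD d
  · exact form_DD hdq
  · show LinearMap.charpoly (DD d) = _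
    rw [charpoly_DD, Fintype.prod_sum_type, ← Finset.prod_mul_distrib]
    rfl
  · intro s
    exact DD_single d s
  · have h0 : InLie (grp3 i₁ i₂ i₃ i₄) (DD (fun _ => 0)) :=
      inLie_grp3 (c := 0) (fun _ => by norm_num) (by norm_num)
    have e0 : (DD (fun _ => 0) : Module.End ℂ (ι ⊕ ι → ℂ)) = 0 := by
      refine LinearMap.ext fun v => ?_
      funext s
      simp
    rwa [e0] at h0
  · intro h
    have h1 := rel_of_inLie3 h
    rw [DD_single, DD_single, DD_single, DD_single, DD_single] at h1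
    obtain ⟨h12, h13, h14, h23, h24, h34⟩ := hi
    simp [hβ, h14, h24, h34] at h1
    norm_num at h1
  · refine ⟨0, fun x y => ?_⟩
    rw [form_apply, form_apply, ← Finset.sum_add_distrib, zero_mul]
    refine Finset.sum_eq_zero fun s _ => ?_
    simp only [DD_apply, hβ]
    by_cases hs : s = i₄
    · subst hs; simp
    · simp [hs]
  · intro Y hY
    exact comm_all hy (hY _ hyL) β
  · intro v h1 h2
    rw [form_inl, neg_eq_zero] at h1
    rw [form_inr] at h2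
    funext s
    rw [DD_apply]
    simp only [hβ]
    split_ifs with h3 h4
    · rw [h3, h2, mul_zero]; rfl
    · rw [h4, h1, mul_zero]; rfl
    · rw [zero_mul]; rfl

end Core

/-- The roots, with the information that the last one satisfies `π + q / π = 1`. -/
theorem roots_vv' {q : ℕ} (hq : 2 ≤ q) {k : ℕ} {h : Fin k → ℤ[X]} (hh : ∀ j, (h j).Monic)
    (i : Fin k) {u : ℤ[X]} (hi : h i = vv q * u) :
    ∃ (n : ℕ) (z : Fin n → ℂ) (a b c d : Fin n), (∀ s, z s ≠ 0) ∧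
      (a ≠ b ∧ a ≠ c ∧ a ≠ d ∧ b ≠ c ∧ b ≠ d ∧ c ≠ d) ∧ z a * z b * z c = q * z d ∧
      (∏ j, (frob q (h j)).map (Int.castRingHom ℂ)) =
        ∏ s, ((X - C (z s)) * (X - C (q / z s))) ∧ z d + q / z d = 1 := by
  classical
  have hq0 : (q : ℂ) ≠ 0 := by
    have : q ≠ 0 := by omega
    exact_mod_cast this
  obtain ⟨π, hπ, hπ1⟩ := quad (q : ℂ) hq0 1
  obtain ⟨ρ₁, ρ₂, ρ₃, e1, e2, e3⟩ := exists_rho (q : ℂ) π
  obtain ⟨n1, n2, n3, hcub⟩ := cubic hq0 hπ hπ1.symm (mul_div_cancel₀ (q : ℂ) hπ) e1 e2 e3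
  set H : ℂ[X] := (h i).map (Int.castRingHom ℂ) with hH
  have hHm : H.Monic := (hh i).map _
  set W : ℂ[X] := u.map (Int.castRingHom ℂ) with hWdef
  have hW : H = (X - C (1 : ℂ)) * ((X - C (ρ₁ + q / ρ₁)) * (X - C (ρ₂ + q / ρ₂)) *
      (X - C (ρ₃ + q / ρ₃))) * W := by
    rw [hcub, hH, hi, hWdef, vv]
    simp only [Polynomial.map_mul, Polynomial.map_sub, Polynomial.map_add, Polynomial.map_pow,
      map_X, map_C, Polynomial.map_one, Int.coe_castRingHom, C_1]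
    push_cast
    rfl
  have hW0 : (X - C (1 : ℂ)) * ((X - C (ρ₁ + q / ρ₁)) * (X - C (ρ₂ + q / ρ₂)) *
      (X - C (ρ₃ + q / ρ₃))) * W ≠ 0 := by
    rw [← hW]
    exact hHm.ne_zero
  have hroots : H.roots = 1 ::ₘ (ρ₁ + q / ρ₁) ::ₘ (ρ₂ + q / ρ₂) ::ₘ (ρ₃ + q / ρ₃) ::ₘ W.roots := by
    have g1 := left_ne_zero_of_mul hW0
    have g2 := right_ne_zero_of_mul g1
    have g3 := left_ne_zero_of_mul g2
    rw [hW, roots_mul hW0, roots_mul g1, roots_mul g2, roots_mul g3, roots_X_sub_C, roots_X_sub_C,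
      roots_X_sub_C, roots_X_sub_C]
    simp only [Multiset.singleton_add, Multiset.cons_add]
  have hPi : (frob q (h i)).map (Int.castRingHom ℂ) =
      ((X - C π) * (X - C (q / π))) * (((X - C ρ₁) * (X - C (q / ρ₁))) *
        (((X - C ρ₂) * (X - C (q / ρ₂))) * (((X - C ρ₃) * (X - C (q / ρ₃))) *
        (W.roots.map (fun r => X ^ 2 - C r * X + C (q : ℂ))).prod))) := by
    rw [map_frob q (h i) (hh i), ← hH, hroots, Multiset.map_cons, Multiset.map_cons,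
      Multiset.map_cons, Multiset.map_cons, Multiset.prod_cons, Multiset.prod_cons,
      Multiset.prod_cons, Multiset.prod_cons, quad_fac (q : ℂ) ρ₁ n1, quad_fac (q : ℂ) ρ₂ n2,
      quad_fac (q : ℂ) ρ₃ n3, ← quad_fac (q : ℂ) π hπ, ← hπ1]
  obtain ⟨l, hl, hlP⟩ : Nice (q : ℂ) ((W.roots.map (fun r => X ^ 2 - C r * X + C (q : ℂ))).prod *
      ∏ j ∈ Finset.univ.erase i, (frob q (h j)).map (Int.castRingHom ℂ)) := by
    refine (nice_multiset (q : ℂ) hq0 _).mul (Nice.prod _ _ fun j _ => ?_)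
    rw [map_frob q (h j) (hh j)]
    exact nice_multiset (q : ℂ) hq0 _
  have htot : (∏ j, (frob q (h j)).map (Int.castRingHom ℂ)) =
      (((ρ₁ :: ρ₂ :: ρ₃ :: π :: l).map (fun z => (X - C z) * (X - C ((q : ℂ) / z)))).prod) := by
    rw [← Finset.mul_prod_erase Finset.univ _ (Finset.mem_univ i), hPi, List.map_cons,
      List.map_cons, List.map_cons, List.map_cons, List.prod_cons, List.prod_cons, List.prod_cons,
      List.prod_cons, ← hlP]
    ring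
  refine ⟨(ρ₁ :: ρ₂ :: ρ₃ :: π :: l).length, fun s => (ρ₁ :: ρ₂ :: ρ₃ :: π :: l).get s,
    ⟨0, by simp⟩, ⟨1, by simp⟩, ⟨2, by simp⟩, ⟨3, by simp⟩, ?_, ?_, ?_, ?_, ?_⟩
  · intro s
    show (ρ₁ :: ρ₂ :: ρ₃ :: π :: l).get s ≠ 0
    have hs : (ρ₁ :: ρ₂ :: ρ₃ :: π :: l).get s ∈ ρ₁ :: ρ₂ :: ρ₃ :: π :: l := List.get_mem _ _
    rcases List.mem_cons.1 hs with h1 | h1
    · rw [h1]; exact n1
    · rcases List.mem_cons.1 h1 with h2 | h2
      · rw [h2]; exact n2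
      · rcases List.mem_cons.1 h2 with h3 | h3
        · rw [h3]; exact n3
        · rcases List.mem_cons.1 h3 with h4 | h4
          · rw [h4]; exact hπ
          · exact hl _ h4
  · refine ⟨?_, ?_, ?_, ?_, ?_, ?_⟩ <;>
    · intro h1
      have := congrArg Fin.val h1
      simp at this
  · exact e3
  · rw [htot]
    exact (Fin.prod_univ_fun_getElem (ρ₁ :: ρ₂ :: ρ₃ :: π :: l)
      (fun z => (X - C z) * (X - C ((q : ℂ) / z)))).symm
  · exact hπ1.symm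

/-- A solution of `w + q / w = 1` is not rational. -/
theorem not_mem_bot {q : ℕ} (hq : 1 ≤ q) {w : ℂ} (hw0 : w ≠ 0) (hw : w + q / w = 1) :
    w ∉ (⊥ : IntermediateField ℚ ℂ) := by
  intro h
  obtain ⟨r, rfl⟩ := IntermediateField.mem_bot.1 h
  have h1 : (algebraMap ℚ ℂ r) * (algebraMap ℚ ℂ r) + q = algebraMap ℚ ℂ r := by
    have h2 := congrArg (fun x => (algebraMap ℚ ℂ r) * x) hw
    simp only [mul_add, mul_one] at h2
    rw [mul_div_cancel₀ _ hw0] at h2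
    exact h2
  have h3 : r * r + (q : ℚ) = r := by
    apply (algebraMap ℚ ℂ).injective
    rw [map_add, map_mul, map_natCast]
    exact h1
  have hqQ : (1 : ℚ) ≤ q := by exact_mod_cast hq
  nlinarith [sq_nonneg (2 * r - 1)]

theorem splitF_one : splitF 1 = ⊥ := by
  unfold splitF
  have e : {z : ℂ | aeval z (1 : ℤ[X]) = 0} = ∅ := by
    ext z
    simp
  rw [e, IntermediateField.adjoin_empty]

/-- Tuples with a factor `vv q` are not `RelLefschetzF`. -/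
theorem not_lefschetzF_vv {q : ℕ} (hq : 2 ≤ q) {k : ℕ} {h : Fin k → ℤ[X]}
    (hh : ∀ j, (h j).Monic) (i : Fin k) {u : ℤ[X]}
    (hi : h i = vv q * u) : ¬ RelLefschetzF q h := by
  intro hL
  obtain ⟨n, z, a, b, c, d, hz, hd, hrel, hprod, hzd⟩ := roots_vv' hq hh i hi
  have hq0 : (q : ℂ) ≠ 0 := by
    have : q ≠ 0 := by omega
    exact_mod_cast this
  obtain ⟨ψ, G, γ, B, hnd, halt, hγ, hsim, hss, hγs, hγq, hchar, hγe, h0, hB, hBs, hBc, hBv⟩ :=
    core4 (q : ℂ) hq0 z hz a b c d hd hrel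
  have hcharR : LinearMap.charpoly (γ : Module.End ℂ (Fin n ⊕ Fin n → ℂ)) =
      (∏ i, powPoly 1 ((frob q (h i)).map (Int.castRingHom ℂ))) *
        (1 : ℤ[X]).map (Int.castRingHom ℂ) := by
    rw [Polynomial.map_one, mul_one, hchar, ← hprod]
    exact Finset.prod_congr rfl fun j _ => (powPoly_one (monic_map_frob q (hh j))).symm
  set T : Set (Fin n ⊕ Fin n → ℂ) := {v | ∃ i, ¬ splitF (frob q (h i)) ≤ splitF 1 ∧
        ∃ z ∈ ((frob q (h i)).map (Int.castRingHom ℂ)).roots,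
          (γ : Module.End ℂ (Fin n ⊕ Fin n → ℂ)) v = z ^ 1 • v} with hT
  obtain ⟨-, h2⟩ := hL (Fin n ⊕ Fin n → ℂ) ψ hnd halt G hsim hss γ hγ 1 one_ne_zero hγs
    (by simpa using hγq) 1 one_ne_zero hcharR (Part G T) rfl
  have hsT : ∀ s : Fin n ⊕ Fin n,
      (Sum.elim z (fun t => (q : ℂ) / z t) s) ∉ (⊥ : IntermediateField ℚ ℂ) →
      (Pi.single s 1 : Fin n ⊕ Fin n → ℂ) ∈ T := by
    intro s hs
    set w : ℂ := Sum.elim z (fun t => (q : ℂ) / z t) s with hw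
    have hroot : (∏ j, (frob q (h j)).map (Int.castRingHom ℂ)).eval w = 0 := by
      rw [hprod, eval_prod]
      rcases s with s | s
      · refine Finset.prod_eq_zero (Finset.mem_univ s) ?_
        simp [hw]
      · refine Finset.prod_eq_zero (Finset.mem_univ s) ?_
        simp [hw]
    rw [eval_prod, Finset.prod_eq_zero_iff] at hroot
    obtain ⟨j, -, hj⟩ := hroot
    refine ⟨j, ?_, w, ?_, ?_⟩
    · intro hle
      apply hs
      rw [splitF_one] at hle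
      apply hle
      refine IntermediateField.subset_adjoin ℚ _ ?_
      show aeval w (frob q (h j)) = 0
      rw [aeval_def, ← eval_map]
      exact hj
    · exact (mem_roots (monic_map_frob q (hh j)).ne_zero).2 hj
    · rw [pow_one]
      exact hγe s
  have hTP : ∀ v ∈ T, v ∈ Part G T := by
    intro v hv
    show v ∈ sInf {U : Submodule ℂ (Fin n ⊕ Fin n → ℂ) |
      (∀ X, InLie G X → ∀ u ∈ U, X u ∈ U) ∧ T ⊆ U}
    rw [Submodule.mem_sInf]
    intro U hU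
    exact hU.2 hv
  have hm1 : z d ∉ (⊥ : IntermediateField ℚ ℂ) := not_mem_bot (by omega) (hz d) hzd
  have hm2 : (q : ℂ) / z d ∉ (⊥ : IntermediateField ℚ ℂ) := by
    refine not_mem_bot (q := q) (by omega) (div_ne_zero hq0 (hz d)) ?_
    rw [div_div_cancel₀ hq0, add_comm]
    exact hzd
  refine hB ((h2 B).2 ⟨hBs, hBc, 0, h0, ?_⟩)
  intro v hv
  rw [LinearMap.zero_apply]
  exact hBv v (hv _ (hTP _ (hsT (Sum.inl d) hm1))) (hv _ (hTP _ (hsT (Sum.inr d) hm2)))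

end Pool.Agent.Helper83.YV
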