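import Pool.Agent.Helper86.YV.Defs
import Pool.Agent.Helper19.AAE.Good

/-!
# YV: the degree of the field generated by the roots of one of the polynomials
-/

set_option autoImplicit false

open Polynomial

namespace Pool.Agent.Helper83.YV

open Pool.Agent.Helper84.AA (frob)
open Pool.Agent.Helper19.AAR (splitF GoodR)
open Pool.Agent.Helper19.AAE (goodR_odd)
open Pool.Agent.Helper86.YV (GoodF)
open Pool.Agent.Helper86.XE (NiceO)
open Pool.Agent.Helper19.AAT (FineAt)
open Pool.Agent.Helper19.Sign (weil weil_monic)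

theorem finiteDimensional_splitF {f : ℤ[X]} (hf : f ≠ 0) : FiniteDimensional ℚ (splitF f) := by
  have hfQ : f.map (Int.castRingHom ℚ) ≠ 0 :=
    (Polynomial.map_ne_zero_iff (Int.castRingHom ℚ).injective_int).2 hf
  have hset : {z : ℂ | aeval z f = 0} = (f.map (Int.castRingHom ℚ)).rootSet ℂ := by
    ext z
    rw [mem_rootSet]
    constructor
    · intro hz
      refine ⟨hfQ, ?_⟩
      have hz' : aeval z f = 0 := hz
      rw [aeval_def] at hz'
      rw [aeval_def, eval₂_map, ← hz']
      congr 1
    · rintro ⟨-, hz⟩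
      show aeval z f = 0
      rw [aeval_def, eval₂_map] at hz
      rw [aeval_def, ← hz]
      congr 1
  have hfin : ({z : ℂ | aeval z f = 0}).Finite := by
    rw [hset]
    exact rootSet_finite _ ℂ
  have : Finite {z : ℂ | aeval z f = 0} := hfin
  refine IntermediateField.finiteDimensional_adjoin (S := {z : ℂ | aeval z f = 0}) ?_
  intro z hz
  have hz' : z ∈ (f.map (Int.castRingHom ℚ)).rootSet ℂ := by rw [← hset]; exact hz
  rw [mem_rootSet] at hz'
  exact (isAlgebraic_iff_isIntegral (K := ℚ)).1 ⟨_, hz'.1, hz'.2⟩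

/-- Good tuples in the landed sense: the roots of the `i`-th polynomial generate a field of degree
at least `2 ^ g_i`. -/
theorem two_pow_le_of_goodR {q k : ℕ} {h : Fin k → ℤ[X]} (hm : ∀ i, (h i).Monic)
    (hd : ∀ i, 2 ≤ (h i).natDegree) (hg : GoodR q h) (i : Fin k) :
    2 ^ (h i).natDegree ≤ Module.finrank ℚ (splitF (frob q (h i))) := by
  classical
  by_contra hlt
  push Not at hlt
  have hfm := weil_monic (q : ℤ) (h i) (hm i)
  have hfm1 : (frob q (h i)).Monic := hfm.1
  have hdeg : (frob q (h i)).natDegree = 2 * (h i).natDegree := hfm.2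
  have hPC : ((frob q (h i)).map (Int.castRingHom ℂ)).natDegree ≠ 0 := by
    rw [hfm1.natDegree_map, hdeg]
    have := hd i
    omega
  obtain ⟨z, hz⟩ := IsAlgClosed.exists_root ((frob q (h i)).map (Int.castRingHom ℂ)) (by
    intro h
    exact hPC (natDegree_eq_of_degree_eq_some h))
  have hzr : z ∈ ((frob q (h i)).map (Int.castRingHom ℂ)).roots.toFinset := by
    rw [Multiset.mem_toFinset, mem_roots (hfm1.map _).ne_zero]
    exact hz
  have hz' : aeval z (frob q (h i)) = 0 := by
    rw [IsRoot.def, eval_map] at hz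
    rw [aeval_def]
    exact hz
  have hzF : z ∈ splitF (frob q (h i)) := IntermediateField.subset_adjoin ℚ _ hz'
  have h1 := hg.2 (frob q (h i)) hfm1.ne_zero (fun j w => if j = i ∧ w = z then 1 else 0) 1
    one_ne_zero (by
      have e : (∏ j, ∏ w ∈ ((frob q (h j)).map (Int.castRingHom ℂ)).roots.toFinset,
          w ^ (if j = i ∧ w = z then (1 : ℤ) else 0)) = z := by
        rw [Finset.prod_eq_single i, Finset.prod_eq_single z]
        · simp
        · intro w _ hw
          rw [if_neg (fun h => hw h.2), zpow_zero]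
        · intro h'
          exact absurd hzr h'
        · intro j _ hj
          refine Finset.prod_eq_one fun w _ => ?_
          rw [if_neg (fun h => hj h.1), zpow_zero]
        · intro h'
          exact absurd (Finset.mem_univ i) h'
      rw [e, pow_one]
      exact hzF) i hlt z hzr
  -- so `q / z = z`
  have h2 : (q : ℂ) / z = z := by
    by_contra hne
    simp [hne] at h1
  have hz0 : z ≠ 0 := by
    rintro rfl
    have hQ : Irreducible ((frob q (h i)).map (Int.castRingHom ℚ)) :=
      (hfm1.irreducible_iff_irreducible_map_fraction_map (K := ℚ)).1 (hg.1 i)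
    have h3 : IsRoot ((frob q (h i)).map (Int.castRingHom ℚ)) 0 := by
      have h4 : aeval (0 : ℂ) (frob q (h i)) =
          algebraMap ℚ ℂ (eval 0 ((frob q (h i)).map (Int.castRingHom ℚ))) := by
        rw [eval_map, aeval_def, hom_eval₂, map_zero]
        congr 1
      rw [hz'] at h4
      exact (algebraMap ℚ ℂ).injective (by rw [← h4, map_zero])
    have h5 : ((frob q (h i)).map (Int.castRingHom ℚ)).natDegree = 1 :=
      natDegree_eq_of_degree_eq_some (degree_eq_one_of_irreducible_of_root hQ h3)
    rw [hfm1.natDegree_map, hdeg] at h5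
    omega
  have hsq : z ^ 2 = q := by
    rw [div_eq_iff hz0] at h2
    rw [sq, ← h2]
  have hQ : Irreducible ((frob q (h i)).map (Int.castRingHom ℚ)) :=
    (hfm1.irreducible_iff_irreducible_map_fraction_map (K := ℚ)).1 (hg.1 i)
  have hmin : minpoly ℚ z = (frob q (h i)).map (Int.castRingHom ℚ) := by
    refine (minpoly.eq_of_irreducible_of_monic hQ ?_ (hfm1.map _)).symm
    rw [aeval_def, eval₂_map, ← hz', aeval_def]
    congr 1
  have h6 : minpoly ℚ z ∣ X ^ 2 - C (q : ℚ) := by
    apply minpoly.dvd
    rw [map_sub, map_pow, aeval_X, aeval_C, hsq]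
    simp
  have h7 := natDegree_le_of_dvd h6 (X_pow_sub_C_ne_zero (by norm_num) _)
  rw [hmin, natDegree_X_pow_sub_C, hfm1.natDegree_map, hdeg] at h7
  have := hd i
  omega

/-- The degree bound, from the criterion. -/
theorem two_pow_le_odd {q k : ℕ} (hq : 1 ≤ q) (h : Fin k → ℤ[X]) (hm : ∀ i, (h i).Monic)
    (hd : ∀ i, 2 ≤ (h i).natDegree) (hirr : ∀ i, Irreducible (h i))
    (hl : ∀ i, ∃ l, NiceO q (h i) l ∧ ∀ j, j ≠ i → FineAt q (h j) l) (i : Fin k) :
    2 ^ (h i).natDegree ≤ Module.finrank ℚ (splitF (frob q (h i))) :=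
  two_pow_le_of_goodR hm hd (goodR_odd hq h hm hd hirr hl) i

/-- The new condition and the degree bound imply the landed condition. -/
theorem goodR_of_goodF {q k : ℕ} {h : Fin k → ℤ[X]} (hg : GoodF q h)
    (hdeg : ∀ i, 2 ^ (h i).natDegree ≤ Module.finrank ℚ (splitF (frob q (h i)))) : GoodR q h := by
  refine ⟨hg.1, fun f hf n N hN hrel i hFi => hg.2 f hf n N hN hrel i fun hle => ?_⟩
  have := finiteDimensional_splitF hf
  have h1 : Module.finrank ℚ (splitF (frob q (h i))) ≤ Module.finrank ℚ (splitF f) :=
    LinearMap.finrank_le_finrank_of_injective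
      (f := (IntermediateField.inclusion hle).toLinearMap)
      (IntermediateField.inclusion hle).injective
  have := hdeg i
  omega

end Pool.Agent.Helper83.YV
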